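import Pool.Agent.MP_542436_nt.Sp.Spec

set_option autoImplicit false

namespace Pool.Agent.MP_542436_nt.H62

open Polynomial NumberField Finset Pool.Agent.MP_542436_nt.Sp

open Classical in
theorem sz_gen {σ : Type} [Fintype σ] [DecidableEq σ] (p : MvPolynomial σ ℂ) (hp : p ≠ 0) : ∃ D : ℕ,
    ∀ (S : σ → Finset ℤ) (n : ℕ), 1 ≤ n → (∀ k, n ≤ (S k).card) →
      ((Fintype.piFinset S).filter
        (fun u => MvPolynomial.eval (fun k => ((u k : ℤ) : ℂ)) p = 0)).card * n ≤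
        D * ∏ k, (S k).card := by
  let e := Fintype.equivFin σ
  have hq : MvPolynomial.rename e p ≠ 0 := fun h =>
    hp (MvPolynomial.rename_injective e e.injective (by rw [h, map_zero]))
  refine ⟨∑ i, (MvPolynomial.rename e p).degreeOf i, fun S n hn hS => ?_⟩
  let T : Fin (Fintype.card σ) → Finset ℂ := fun i =>
    (S (e.symm i)).map ⟨Int.cast, Int.cast_injective⟩
  have hT : ∀ i, (T i).card = (S (e.symm i)).card := fun i => card_map _
  have h1 := MvPolynomial.schwartz_zippel_sum_degreeOf hq T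
  have h2 : ((Fintype.piFinset S).filter
      (fun u => MvPolynomial.eval (fun k => ((u k : ℤ) : ℂ)) p = 0)).card ≤
      ((Fintype.piFinset T).filter
        (fun x => MvPolynomial.eval x (MvPolynomial.rename e p) = 0)).card := by
    refine card_le_card_of_injOn (fun u i => ((u (e.symm i) : ℤ) : ℂ)) (fun u hu => ?_)
      fun u _ v _ h => funext fun k => ?_
    · simp only [coe_filter, Fintype.mem_piFinset, Set.mem_ofPred_eq] at hu ⊢
      refine ⟨fun i => mem_map_of_mem _ (hu.1 _), ?_⟩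
      rw [MvPolynomial.eval_rename, ← hu.2]
      congr 2
      funext k
      simp
    · simpa using congrFun h (e k)
  have h3 : ∏ i, ((T i).card : ℚ≥0) = ((∏ k, (S k).card : ℕ) : ℚ≥0) := by
    rw [Nat.cast_prod, ← e.symm.prod_comp]
    exact prod_congr rfl fun i _ => by rw [hT]
  have n0 : (0 : ℚ≥0) < n := by exact_mod_cast hn
  have h4 : ∑ i, (((MvPolynomial.rename e p).degreeOf i : ℚ≥0) / (T i).card) ≤
      ((∑ i, (MvPolynomial.rename e p).degreeOf i : ℕ) : ℚ≥0) / n := by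
    rw [Nat.cast_sum, sum_div]
    refine sum_le_sum fun i _ => div_le_div_of_nonneg_left (zero_le) n0 ?_
    rw [hT]
    exact_mod_cast hS _
  have p0 : (0 : ℚ≥0) < ((∏ k, (S k).card : ℕ) : ℚ≥0) := by
    exact_mod_cast prod_pos fun k _ => hn.trans (hS k)
  have h5 := h1.trans h4
  rw [h3, div_le_div_iff₀ p0 n0] at h5
  exact (Nat.mul_le_mul_right n h2).trans (by exact_mod_cast h5)

theorem sz : SZStmt := by
  intro d Δ hΔ
  obtain ⟨D, hD⟩ := sz_gen Δ hΔ
  refine ⟨D * (3 ^ d * 3 ^ (d - 1)), by positivity, fun i0 N0 N1 h0 h1 => ?_⟩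
  have c : ∀ N : ℕ, (Icc (-(N : ℤ)) N).card = 2 * N + 1 := fun N => by
    rw [Int.card_Icc]
    omega
  have h2 := hD (fun k => if k.1 = 0 ∨ k.2 = i0 then Icc (-(N0 : ℤ)) N0 else Icc (-(N1 : ℤ)) N1)
    (2 * N0 + 1) (by omega) fun k => by
      split_ifs <;> rw [c]
      omega
  have h3 : ∏ k : Fin 2 × Fin d, (if k.1 = 0 ∨ k.2 = i0 then Icc (-(N0 : ℤ)) N0
      else Icc (-(N1 : ℤ)) N1).card = (2 * N0 + 1) ^ d * (2 * N1 + 1) ^ (d - 1) * (2 * N0 + 1) := by
    rw [Fintype.prod_prod_type, Fin.prod_univ_two, ← prod_erase_mul univ (fun j =>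
      (if ((1 : Fin 2), j).1 = 0 ∨ ((1 : Fin 2), j).2 = i0 then Icc (-(N0 : ℤ)) N0
        else Icc (-(N1 : ℤ)) N1).card) (mem_univ i0), mul_assoc]
    congr 1
    · simp [-Int.card_Icc, c]
    · congr 1
      · rw [prod_congr rfl (g := fun _ => 2 * N1 + 1) fun j hj => by
          rw [if_neg (by simpa using hj), c]]
        simp
      · simp [-Int.card_Icc, c]
  rw [h3, ← mul_assoc] at h2
  have h4 := Nat.le_of_mul_le_mul_right h2 (by omega)
  have h5 : D * ((2 * N0 + 1) ^ d * (2 * N1 + 1) ^ (d - 1)) ≤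
      D * (3 ^ d * 3 ^ (d - 1)) * (N0 ^ d * N1 ^ (d - 1)) := by
    rw [mul_assoc, mul_mul_mul_comm, ← mul_pow, ← mul_pow]
    gcongr <;> omega
  have h6 := h4.trans h5
  rw [pbox]
  exact_mod_cast h6

section Rare

variable {K : Type} [Field K] {d : ℕ}

/-- the conjugates of the generic vectors of a pair -/
noncomputable def ze (θ : K) (d : ℕ) (e : Fin 2) (σ : K →+* ℂ) : MvPolynomial (Fin 2 × Fin d) ℂ :=
  ∑ i : Fin d, MvPolynomial.X (e, i) * MvPolynomial.C (σ θ ^ (i : ℕ))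

theorem ze_int (θ : K) (e : Fin 2) (σ : K →+* ℂ) (u : Fin 2 × Fin d → ℤ) :
    MvPolynomial.eval (fun k => ((u k : ℤ) : ℂ)) (ze θ d e σ) = σ (el θ fun i => u (e, i)) := by
  simp [ze, el]

theorem ze_surj [NumberField K] {θ : K} (h : St d θ) (w : Fin 2 → (K →+* ℂ) → ℂ) :
    ∃ v : Fin 2 × Fin d → ℂ, ∀ e σ, MvPolynomial.eval v (ze θ d e σ) = w e σ := by
  classical
  refine ⟨fun k => (Lagrange.interpolate univ (fun σ : K →+* ℂ => σ θ) (w k.1)).coeff k.2,
    fun e σ => ?_⟩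
  have h1 := Lagrange.degree_interpolate_lt (w e) (s := univ) h.gen.injOn
  rw [card_univ, Embeddings.card, h.rk] at h1
  have h2 : (Lagrange.interpolate univ (fun σ : K →+* ℂ => σ θ) (w e)).natDegree < d := by
    by_cases c : Lagrange.interpolate univ (fun σ : K →+* ℂ => σ θ) (w e) = 0
    · rw [c, natDegree_zero]
      have := h.six
      omega
    · exact (natDegree_lt_iff_degree_lt c).2 h1
  rw [← Lagrange.eval_interpolate_at_node (w e) h.gen.injOn (mem_univ σ), eval_eq_sum_range' h2,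
    sum_range]
  simp [ze]

/-- the set is contained in the zero set of a nonzero polynomial -/
def Thin (P : (Fin 2 × Fin d → ℤ) → Prop) : Prop :=
  ∃ Δ : MvPolynomial (Fin 2 × Fin d) ℂ, Δ ≠ 0 ∧
    ∀ u, P u → MvPolynomial.eval (fun k => ((u k : ℤ) : ℂ)) Δ = 0

theorem Thin.mono {P Q : (Fin 2 × Fin d → ℤ) → Prop} (h : Thin Q) (i : ∀ u, P u → Q u) :
    Thin P := let ⟨Δ, a, b⟩ := h; ⟨Δ, a, fun u c => b u (i u c)⟩

theorem Thin.or {P Q : (Fin 2 × Fin d → ℤ) → Prop} (h : Thin P) (h' : Thin Q) :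
    Thin fun u => P u ∨ Q u := by
  obtain ⟨Δ, a, b⟩ := h
  obtain ⟨Δ', a', b'⟩ := h'
  refine ⟨Δ * Δ', mul_ne_zero a a', fun u c => ?_⟩
  rw [map_mul, mul_eq_zero]
  exact c.imp (b u) (b' u)

theorem Thin.list {ι : Type} (L : List ι) (P : ι → (Fin 2 × Fin d → ℤ) → Prop)
    (h : ∀ c ∈ L, Thin (P c)) : Thin fun u => ∃ c ∈ L, P c u := by
  induction L with
  | nil => exact ⟨1, one_ne_zero, by simp⟩
  | cons a L ih =>
    exact ((h a (by simp)).or (ih fun c hc => h c (by simp [hc]))).mono fun u c => by simpa using c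

theorem thin_gen [NumberField K] {θ : K} (h : St d θ) :
    Thin fun u : Fin 2 × Fin d → ℤ => z0 θ u ≠ 0 ∧ ¬ Gen (om θ u) := by
  classical
  refine ⟨∏ q ∈ (univ : Finset (K →+* ℂ)).offDiag,
    (ze θ d 0 q.1 * ze θ d 1 q.2 - ze θ d 0 q.2 * ze θ d 1 q.1), ?_, fun u ⟨h0, h1⟩ => ?_⟩
  · obtain ⟨v, hv⟩ := ze_surj h ![fun _ => 1, fun σ => σ θ]
    refine prod_ne_zero_iff.2 fun q hq c => (mem_offDiag.1 hq).2.2 (h.gen ?_)
    have := congrArg (MvPolynomial.eval v) c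
    simp only [map_sub, map_mul, hv, map_zero] at this
    exact (by simpa [sub_eq_zero] using this : q.2 θ = q.1 θ).symm
  · obtain ⟨σ, τ, e, ne⟩ := Function.not_injective_iff.1 h1
    rw [map_prod]
    refine prod_eq_zero (i := (σ, τ)) (by simpa using ne) ?_
    simp only [map_sub, map_mul, ze_int]
    simp only [om, map_div₀, map_neg] at e
    rw [div_eq_div_iff ((map_ne_zero σ).2 h0) ((map_ne_zero τ).2 h0)] at e
    simp only [z0, z1] at e
    linear_combination e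

/-- the homogeneous order conditions -/
def cm {S ι : Type} [CommRing S] (m n r : ℕ) (a b t : ι → S) :
    Matrix (ι × Fin r × Fin r) (Fin (m + 1) × Fin (n + 1)) S := fun q k =>
  if (q.2.1 : ℕ) + 2 * q.2.2 < r then
    (((k.1 : ℕ).choose q.2.1 : S) * (-b q.1) ^ ((k.1 : ℕ) - q.2.1) * a q.1 ^ (m - k.1)) *
      (((k.2 : ℕ).choose q.2.2 : S) * t q.1 ^ ((k.2 : ℕ) - q.2.2)) else 0

theorem cm_map {S ι : Type} [CommRing S] (m n r : ℕ) (a b t : ι → S) (φ : S →+* ℂ) :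
    (cm m n r a b t).map φ = cm m n r (fun i => φ (a i)) (fun i => φ (b i)) fun i => φ (t i) := by
  ext q k
  simp only [cm, Matrix.map_apply]
  split_ifs <;> simp

theorem cm_row {ι : Type} (m n r : ℕ) (a b t : ι → ℂ) (f : ℂ[X][X]) (q : ι × Fin r × Fin r)
    (h : a q.1 ≠ 0) (hq : (q.2.1 : ℕ) + 2 * q.2.2 < r) :
    (cm m n r a b t).mulVec (fun k => cf f k.1 k.2) q =
      a q.1 ^ (m - q.2.1) * tc (m + 1) (n + 1) (-b q.1 / a q.1) (t q.1) f q.2.1 q.2.2 := by
  rw [Matrix.mulVec, dotProduct, Fintype.sum_prod_type, tc, mul_sum, sum_range]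
  refine sum_congr rfl fun x _ => ?_
  rw [mul_sum, sum_range]
  refine sum_congr rfl fun y _ => ?_
  rw [cm, if_pos hq]
  rcases lt_or_ge (x : ℕ) q.2.1 with c | c
  · simp [Nat.choose_eq_zero_of_lt c]
  · rw [show m - q.2.1 = m - x + (x - q.2.1) by omega, pow_add, div_pow]
    field_simp

theorem cm_ker (hB : BaseStmt) {ι : Type} {m n r : ℕ} {a : ι → ℂ} (b t : ι → ℂ) {f : ℂ[X][X]}
    (h : ∀ i, a i ≠ 0) (hf : Dg (m + 1) (n + 1) f) :
    (cm m n r a b t).mulVec (fun k => cf f k.1 k.2) = 0 ↔ ∀ s, Ord (-b s / a s) (t s) r f := by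
  refine ⟨fun c s => (hB.ord_iff ℂ _ _ _ _ _ _ hf).2 fun i j hij => ?_, fun c => funext fun q => ?_⟩
  · have := congrFun c (s, ⟨i, by omega⟩, ⟨j, by omega⟩)
    rw [cm_row _ _ _ _ _ _ _ _ (h s) hij] at this
    exact (mul_eq_zero.1 this).resolve_left (pow_ne_zero _ (h s))
  · by_cases hq : (q.2.1 : ℕ) + 2 * q.2.2 < r
    · rw [cm_row _ _ _ _ _ _ _ _ (h _) hq, (hB.ord_iff ℂ _ _ _ _ _ _ hf).1 (c _) _ _ hq, mul_zero,
        Pi.zero_apply]
    · simp [Matrix.mulVec, dotProduct, cm, hq]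

theorem ex_cf {M N : ℕ} (φ : Fin M × Fin N → ℂ) :
    ∃ f : ℂ[X][X], Dg M N f ∧ ∀ k : Fin M × Fin N, cf f k.1 k.2 = φ k := by
  have e : ∀ i j, cf (∑ k : Fin M × Fin N, monomial k.2 (monomial k.1 (φ k))) i j =
      ∑ k : Fin M × Fin N, if (k.2 : ℕ) = j ∧ (k.1 : ℕ) = i then φ k else 0 := fun i j => by
    simp only [cf, finsetSum_coeff, coeff_monomial, apply_ite (coeff · i), coeff_zero, ite_and]
  refine ⟨∑ k : Fin M × Fin N, monomial k.2 (monomial k.1 (φ k)), fun i j h => ?_, fun k => ?_⟩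
  · rw [e] at h
    obtain ⟨k, -, c⟩ := exists_ne_zero_of_sum_ne_zero h
    obtain ⟨rfl, rfl⟩ : (k.2 : ℕ) = j ∧ (k.1 : ℕ) = i := by_contra fun c' => c (if_neg c')
    exact ⟨k.1.2, k.2.2⟩
  · rw [e, sum_eq_single k (fun k' _ c => if_neg fun c' =>
      c (Prod.ext (Fin.ext c'.2) (Fin.ext c'.1))) (by simp)]
    simp

theorem thin_cls [NumberField K] (hB : BaseStmt) (hI : InjStmt) {θ : K} (h : St d θ) (m n r : ℕ)
    (E : Fin d ≃ (K →+* ℂ)) (w : Fin d → ℂ)
    (hw : Vs (m + 1) (n + 1) (fun _ => r) w (fun i => E i θ) = ⊥) :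
    Thin fun u : Fin 2 × Fin d → ℤ => z0 θ u ≠ 0 ∧ ∃ f : ℤ[X][X], f ≠ 0 ∧ Dg (m + 1) (n + 1) f ∧
      Ord (om θ u) θ r (up K f) := by
  obtain ⟨v, hv⟩ := ze_surj h ![fun _ => 1, fun σ => -w (E.symm σ)]
  have key : ∀ v : Fin 2 × Fin d → ℂ, (cm m n r (fun i => ze θ d 0 (E i)) (fun i => ze θ d 1 (E i))
      fun i => MvPolynomial.C (E i θ)).map (MvPolynomial.aeval v) =
      cm m n r (fun i => MvPolynomial.eval v (ze θ d 0 (E i)))
        (fun i => MvPolynomial.eval v (ze θ d 1 (E i))) fun i => E i θ := fun v => by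
    have := cm_map m n r (fun i => ze θ d 0 (E i)) (fun i => ze θ d 1 (E i))
      (fun i => MvPolynomial.C (E i θ)) (MvPolynomial.eval v)
    simpa only [MvPolynomial.eval_C, MvPolynomial.aeval_eq_eval] using this
  obtain ⟨Δ, h0, h1⟩ := hI _ _ _ (cm m n r (fun i => ze θ d 0 (E i)) (fun i => ze θ d 1 (E i))
    fun i => MvPolynomial.C (E i θ)) (MvPolynomial.aeval v) (by
      rw [key]
      refine (injective_iff_map_eq_zero (Matrix.mulVecLin _)).2 fun φ c => ?_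
      obtain ⟨f, a, b⟩ := ex_cf φ
      obtain rfl : (fun k : Fin (m + 1) × Fin (n + 1) => cf f k.1 k.2) = φ := funext b
      have o := (cm_ker hB _ _ (fun i => by simp [hv]) a).1 c
      have : f ∈ Vs (m + 1) (n + 1) (fun _ => r) w (fun i => E i θ) :=
        ⟨a, fun i => by simpa [hv] using o i⟩
      rw [hw, Submodule.mem_bot] at this
      funext k
      simp [this, cf])
  refine ⟨Δ, fun c => h0 (by rw [c, map_zero]), fun u ⟨a, f, f0, b, o⟩ => by_contra fun c => f0 ?_⟩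
  have i := h1 (MvPolynomial.aeval fun k => ((u k : ℤ) : ℂ)) c
  rw [key] at i
  have b' : Dg (m + 1) (n + 1) (up ℂ f) := fun x y c => b x y fun c' =>
    c (by rw [hB.cf_up, c', Int.cast_zero])
  have z := i (((cm_ker hB _ _ (fun s => by
    rw [ze_int]
    exact (_root_.map_ne_zero _).2 a) b').2 fun s => by
      have := hB.ord_map _ _ (E s) _ _ _ _ o
      rw [hB.up_map, om, map_div₀, map_neg] at this
      rwa [ze_int, ze_int]).trans (Matrix.mulVec_zero _).symm)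
  ext y x
  by_contra c
  have := congrFun z (⟨x, (b x y c).1⟩, ⟨y, (b x y c).2⟩)
  rw [hB.cf_up, Pi.zero_apply, Int.cast_eq_zero] at this
  exact c this

end Rare

open Classical in
theorem rare0 (hB : BaseStmt) (hI : InjStmt) (hE : ExStmt) (hS : SZStmt) : Rare0Stmt := by
  intro K _ _ d θ h
  have t : Thin fun u : Fin 2 × Fin d → ℤ => z0 θ u ≠ 0 ∧ Bad0 d θ (om θ u) := by
    by_cases c : d = 7
    · subst c
      let E : Fin 7 ≃ (K →+* ℂ) :=
        (Fintype.equivFinOfCardEq (by rw [Embeddings.card, h.rk])).symm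
      have h1 := (hE (fun i => E i θ) (h.gen.comp E.injective)).1
      refine ((thin_gen h).or (Thin.list list0 _ fun c hc =>
        thin_cls hB hI h c.1 c.2.1 c.2.2 E _ (h1 c hc).choose_spec)).mono fun u ⟨a, b⟩ => ?_
      exact b.imp (fun b => ⟨a, b⟩) fun ⟨_, c, hc, b⟩ => ⟨c, hc, a, b⟩
    · exact (thin_gen h).mono fun u ⟨a, b⟩ => ⟨a, b.resolve_right fun b => c b.1⟩
  obtain ⟨Δ, h0, h1⟩ := t
  obtain ⟨C, c0, c1⟩ := hS d Δ h0
  refine ⟨C, c0, fun i0 N0 N1 a b => le_trans ?_ (c1 i0 N0 N1 a b)⟩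
  exact Nat.cast_le.2 (card_le_card fun u hu =>
    mem_filter.2 ⟨(mem_filter.1 hu).1, h1 u (mem_filter.1 hu).2⟩)

end Pool.Agent.MP_542436_nt.H62
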